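import Pool.Agent.W434.LoopSI

/-!
Ultraproducts of the models `M (a + 1)`: they satisfy the identities of the loop of order 72 and
are subdirectly irreducible.
-/

set_option autoImplicit false

open FirstOrder Filter

namespace Pool.Agent.W434.LoopSI

open Pool.Agent.H659Loop

/-- the structures on the models -/
@[reducible] def strM (a : ℕ) : Lg.Structure (M (a + 1)) := (opM (a + 1)).str

/-! ### Identities in finitely many variables -/

theorem vb_relabel (n : ℕ) : ∀ t : Lg.Term (Fin n), vb (t.relabel (fun i : Fin n => (i : ℕ))) ≤ n := by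
  refine term_ind' ?_ ?_ ?_
  · intro i
    exact i.2
  · intro g ts
    change vb (Language.Term.func g _) ≤ n
    rw [vb]
    simp
  · intro g ts h0 h1
    change vb (Language.Term.func (l := 2) g (fun i => (ts i).relabel _)) ≤ n
    rw [vb]
    apply Finset.sup_le
    intro i _
    fin_cases i
    · exact h0
    · exact h1

theorem ev_relabel {P : Type} (o : Ops P) {n : ℕ} (t : Lg.Term (Fin n)) (x : ℕ → P) :
    o.eval (t.relabel (fun i : Fin n => (i : ℕ))) x = ev o t (fun i => x i) := by
  unfold Ops.eval ev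
  letI := o.str
  exact Language.Term.realize_relabel

/-- an identity of the small loop in `n ≤ a` variables holds in `M (a + 1)` -/
theorem id_M {n : ℕ} (t s : Lg.Term (Fin n))
    (H : ∀ v : Fin n → Q, ev opQ t v = ev opQ s v) (a : ℕ) (ha : n ≤ a)
    (w : Fin n → M (a + 1)) : ev (opM (a + 1)) t w = ev (opM (a + 1)) s w := by
  have h1 := transfer (s := t.relabel (fun i : Fin n => (i : ℕ)))
    (t := s.relabel (fun i : Fin n => (i : ℕ)))
    (by
      intro v
      rw [ev_relabel, ev_relabel]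
      exact H _) (a + 1) a (Nat.lt_succ_self a) ((vb_relabel n t).trans ha)
      ((vb_relabel n s).trans ha)
      (fun j => if hj : j < n then w ⟨j, hj⟩ else (opM (a + 1)).e)
  rw [ev_relabel, ev_relabel] at h1
  have h2 : (fun i : Fin n => (fun j => if hj : j < n then w ⟨j, hj⟩ else (opM (a + 1)).e)
      (i : ℕ)) = w := by
    funext i
    simp
  rw [h2] at h1
  exact h1

/-- the finite-variable identities of the small loop do not all hold in `M (a + 1)` -/
theorem not_id_M (a : ℕ) : ¬ ∀ (n : ℕ) (t s : Lg.Term (Fin n)),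
    (∀ v : Fin n → Q, ev opQ t v = ev opQ s v) →
    ∀ w : Fin n → M (a + 1), ev (opM (a + 1)) t w = ev (opM (a + 1)) s w := by
  intro hall
  apply law_M a
  intro x
  obtain ⟨N, hl, hr⟩ : ∃ N, vb (lhs a) ≤ N + 1 ∧ vb (rhs a) ≤ N + 1 :=
    ⟨max (vb (lhs a)) (vb (rhs a)), (le_max_left _ _).trans (Nat.le_succ _),
      (le_max_right _ _).trans (Nat.le_succ _)⟩
  let r : ℕ → Fin (N + 1) := fun j => if hj : j < N + 1 then ⟨j, hj⟩ else 0
  have hev : ∀ (P : Type) (o : Ops P) (t : Lg.Term ℕ) (y : Fin (N + 1) → P),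
      ev o (t.relabel r) y = o.eval t (fun j => y (r j)) := by
    intro P o t y
    unfold Ops.eval ev
    letI := o.str
    exact Language.Term.realize_relabel
  have h1 := hall (N + 1) ((lhs a).relabel r) ((rhs a).relabel r) (by
    intro v
    rw [hev, hev]
    exact law_Q a _) (fun i => x i)
  rw [hev, hev] at h1
  have hr' : ∀ j < N + 1, x (r j) = x j := by
    intro j hj
    have hrj : r j = ⟨j, hj⟩ := dif_pos hj
    rw [hrj]
  rw [eval_congr (opM (a + 1)) (fun j => x (r j)) x (lhs a)
    (fun j hj => hr' j (lt_of_lt_of_le hj hl)),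
    eval_congr (opM (a + 1)) (fun j => x (r j)) x (rhs a)
    (fun j hj => hr' j (lt_of_lt_of_le hj hr))] at h1
  exact h1

/-! ### The Maltsev term -/

/-- the operation symbols -/
abbrev gS (g : Fin 3) : Lg.Functions 2 := (show Lg.Functions 2 from g)

/-- binary terms -/
def bt {V : Type} (g : Fin 3) (u v : Lg.Term V) : Lg.Term V :=
  Language.Term.func (l := 2) (gS g) ![u, v]

theorem ev_bt {P V : Type} (o : Ops P) (g : Fin 3) (u v : Lg.Term V) (x : V → P) :
    ev o (bt g u v) x = o.op g (ev o u x) (ev o v x) := rfl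

section variety

variable {B : Type} [Lg.Structure B]

/-- the operation of a structure -/
def fo (g : Fin 3) (x y : B) : B := Language.Structure.funMap (L := Lg) (n := 2) (gS g) ![x, y]

/-- the constant of a structure -/
def fe : B := Language.Structure.funMap (L := Lg) (n := 0) (show Lg.Functions 0 from (0 : Fin 1)) ![]

theorem realize_bt {V : Type} (g : Fin 3) (u v : Lg.Term V) (x : V → B) :
    (bt g u v).realize x = fo g (u.realize x) (v.realize x) := by
  unfold bt fo
  rw [Language.Term.realize_func]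
  congr 1
  funext i
  fin_cases i <;> rfl

variable (H : ∀ (n : ℕ) (t s : Lg.Term (Fin n)),
    (∀ v : Fin n → Q, ev opQ t v = ev opQ s v) → ∀ w : Fin n → B, t.realize w = s.realize w)

include H

theorem mal_left (x y : B) : fo 0 (fo 2 x x) y = y := by
  have h1 := H 2 (bt 0 (bt 2 (.var 0) (.var 0)) (.var 1)) (.var 1) (by
    intro v
    rw [ev_bt, ev_bt]
    change opQ.mul (opQ.rd (v 0) (v 0)) (v 1) = v 1
    have h2 : opQ.rd (v 0) (v 0) = opQ.e := by
      have h3 := mul_rd evQ opQ.e (v 0)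
      have h4 := e_mul evQ (v 0)
      unfold opQ at *
      rw [h4] at h3
      exact h3
    rw [h2]
    exact e_mul evQ (v 1)) ![x, y]
  rw [realize_bt, realize_bt] at h1
  exact h1

theorem mal_right (x y : B) : fo 0 (fo 2 x y) y = x := by
  have h1 := H 2 (bt 0 (bt 2 (.var 0) (.var 1)) (.var 1)) (.var 0) (by
    intro v
    rw [ev_bt, ev_bt]
    exact rd_mul evQ (v 0) (v 1)) ![x, y]
  rw [realize_bt, realize_bt] at h1
  exact h1

end variety

theorem comp_fo {B : Type} [Lg.Structure B] {α : B → B → Prop}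
    (hα : ∀ (n : ℕ) (f : Lg.Functions n) (x y : Fin n → B),
      (∀ i, α (x i) (y i)) → α (Language.Structure.funMap f x) (Language.Structure.funMap f y))
    (g : Fin 3) {x x' y y' : B} (hx : α x x') (hy : α y y') : α (fo g x y) (fo g x' y') := by
  apply hα 2 (gS g)
  intro i
  fin_cases i
  · exact hx
  · exact hy

theorem perm {B : Type} [Lg.Structure B] (H : ∀ (n : ℕ) (t s : Lg.Term (Fin n)),
    (∀ v : Fin n → Q, ev opQ t v = ev opQ s v) → ∀ w : Fin n → B, t.realize w = s.realize w)
    (α β : B → B → Prop) (eα : Equivalence α) (eβ : Equivalence β)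
    (hα : ∀ (n : ℕ) (f : Lg.Functions n) (x y : Fin n → B),
      (∀ i, α (x i) (y i)) → α (Language.Structure.funMap f x) (Language.Structure.funMap f y))
    (hβ : ∀ (n : ℕ) (f : Lg.Functions n) (x y : Fin n → B),
      (∀ i, β (x i) (y i)) → β (Language.Structure.funMap f x) (Language.Structure.funMap f y))
    (x y : B) (h : ∃ z, α x z ∧ β z y) : ∃ z, β x z ∧ α z y := by
  obtain ⟨z, h1, h2⟩ := h
  refine ⟨fo 0 (fo 2 x z) y, ?_, ?_⟩
  · have h3 : β (fo 0 (fo 2 x z) z) (fo 0 (fo 2 x z) y) :=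
      comp_fo hβ 0 (eβ.refl _) h2
    rw [mal_right H] at h3
    exact h3
  · have h3 : α (fo 0 (fo 2 x z) y) (fo 0 (fo 2 z z) y) :=
      comp_fo hα 0 (comp_fo hα 2 h1 (eα.refl _)) (eα.refl _)
    rw [mal_left H] at h3
    exact h3

/-! ### The ultraproduct -/

/-- the ultrafilter -/
noncomputable abbrev U : Ultrafilter ℕ := Filter.hyperfilter ℕ

attribute [local instance] strM

/-- the ultraproduct -/
abbrev BI : Type := (U : Filter ℕ).Product (fun a => M (a + 1))

noncomputable instance strBI : Lg.Structure BI := Language.Ultraproduct.structure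

theorem ev_large {p : ℕ → Prop} (N : ℕ) (h : ∀ a, N ≤ a → p a) : ∀ᶠ a in (U : Filter ℕ), p a := by
  have h1 : ∀ᶠ a in (cofinite : Filter ℕ), p a := by
    rw [Nat.cofinite_eq_atTop]
    exact Filter.eventually_atTop.mpr ⟨N, h⟩
  exact Filter.hyperfilter_le_cofinite h1

theorem BI_ids (n : ℕ) (t s : Lg.Term (Fin n))
    (H : ∀ v : Fin n → Q, ev opQ t v = ev opQ s v) (w : Fin n → BI) :
    t.realize w = s.realize w := by
  obtain ⟨x, rfl⟩ : ∃ x : Fin n → ∀ a, M (a + 1), w = fun i => ((x i : BI)) := by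
    refine ⟨fun i => (w i).out, ?_⟩
    funext i
    exact ((w i).out_eq).symm
  have h1 := Language.Ultraproduct.term_realize_cast (L := Lg) (M := fun a => M (a + 1)) (u := U) x t
  have h2 := Language.Ultraproduct.term_realize_cast (L := Lg) (M := fun a => M (a + 1)) (u := U) x s
  refine h1.trans (Eq.trans ?_ h2.symm)
  apply Quotient.sound
  exact ev_large n (fun a ha => id_M t s H a ha _)

/-- the operations of the ultraproduct on representatives -/
theorem fo_cast (g : Fin 3) (x y : ∀ a, M (a + 1)) :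
    fo g (x : BI) (y : BI) = ((fun a => (opM (a + 1)).op g (x a) (y a) : ∀ a, M (a + 1)) : BI) := by
  have h1 := Language.Ultraproduct.funMap_cast (L := Lg) (M := fun a => M (a + 1)) (u := U)
    (n := 2) (gS g) ![x, y]
  have h2 : (fun i => ((![x, y] i : ∀ a, M (a + 1)) : BI)) = ![(x : BI), (y : BI)] := by
    funext i
    fin_cases i <;> rfl
  unfold fo
  rw [← h2]
  exact h1

/-- the unit of the ultraproduct -/
noncomputable def eI : BI := ((fun a => (opM (a + 1)).e : ∀ a, M (a + 1)) : BI)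

/-- the central element of the ultraproduct -/
noncomputable def zI : BI := ((fun a => zet (a + 1) : ∀ a, M (a + 1)) : BI)

theorem zI_ne : zI ≠ eI := by
  intro h
  have h1 : ∀ᶠ a in (U : Filter ℕ), zet (a + 1) = (opM (a + 1)).e := Quotient.exact h
  obtain ⟨a, ha⟩ := h1.exists
  exact zet_ne _ ha

/-- the commutator in a structure -/
def cm {B : Type} [Lg.Structure B] (x y : B) : B := fo 2 (fo 0 x y) (fo 0 y x)

theorem cm_cast (x y : ∀ a, M (a + 1)) :
    cm (x : BI) (y : BI) = ((fun a => com (opM (a + 1)) (x a) (y a) : ∀ a, M (a + 1)) : BI) := by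
  unfold cm
  rw [fo_cast, fo_cast, fo_cast]
  rfl

theorem cm_e (y : BI) : cm eI y = eI := by
  obtain ⟨y, rfl⟩ := Quotient.exists_rep y
  refine (cm_cast (fun a => (opM (a + 1)).e) y).trans ?_
  unfold eI
  congr 1
  funext a
  unfold com
  unfold opM
  rw [e_mul, mul_e]
  have h1 := mul_rd (evM (a + 1)) (opE (evM (a + 1))).e (y a)
  rw [e_mul] at h1
  exact h1

theorem BI_si (x : BI) (hx : x ≠ eI) : ∃ y z : BI, x = zI ∨ cm x z = zI ∨ cm (cm x y) z = zI := by
  obtain ⟨x, rfl⟩ := Quotient.exists_rep x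
  have h1 : ∀ᶠ a in (U : Filter ℕ), x a ≠ (opM (a + 1)).e := by
    rw [Ultrafilter.eventually_not]
    intro h
    exact hx (Quotient.sound h)
  have h2 : ∀ a, ∃ y z : M (a + 1), x a ≠ (opM (a + 1)).e →
      (x a = zet (a + 1) ∨ com (opM (a + 1)) (x a) z = zet (a + 1) ∨
      com (opM (a + 1)) (com (opM (a + 1)) (x a) y) z = zet (a + 1)) := by
    intro a
    by_cases h : x a = (opM (a + 1)).e
    · exact ⟨x a, x a, fun hh => absurd h hh⟩
    · obtain ⟨y, z, hyz⟩ := si (Nat.succ_pos a) (x a) h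
      exact ⟨y, z, fun _ => hyz⟩
  choose y z hyz using h2
  refine ⟨(y : BI), (z : BI), ?_⟩
  have h3 : ∀ᶠ a in (U : Filter ℕ),
      (x a = zet (a + 1) ∨ com (opM (a + 1)) (x a) (z a) = zet (a + 1) ∨
      com (opM (a + 1)) (com (opM (a + 1)) (x a) (y a)) (z a) = zet (a + 1)) :=
    h1.mono (fun a ha => hyz a ha)
  rw [Ultrafilter.eventually_or, Ultrafilter.eventually_or] at h3
  rcases h3 with h3 | h3 | h3
  · left
    exact Quotient.sound h3
  · right; left
    refine (cm_cast x z).trans ?_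
    exact Quotient.sound h3
  · right; right
    have h4 : cm ((x : BI)) (y : BI) = _ := cm_cast x y
    change cm (cm (x : BI) (y : BI)) (z : BI) = zI
    rw [h4]
    refine (cm_cast _ z).trans ?_
    exact Quotient.sound h3

theorem fo_rd_self (y : BI) : fo 2 y y = eI := by
  obtain ⟨y, rfl⟩ := Quotient.exists_rep y
  refine (fo_cast 2 y y).trans ?_
  unfold eI
  congr 1
  funext a
  have h1 := mul_rd (evM (a + 1)) (opE (evM (a + 1))).e (y a)
  rw [e_mul] at h1
  exact h1

theorem fo_rd_e (x y : BI) (h : fo 2 x y = eI) : x = y := by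
  have h1 := mal_right (B := BI) BI_ids x y
  have h2 := mal_left (B := BI) BI_ids y y
  rw [h] at h1
  rw [fo_rd_self] at h2
  exact h1.symm.trans h2

/-- every nontrivial congruence of the ultraproduct contains the central pair -/
theorem BI_mono (θ : BI → BI → Prop) (eθ : Equivalence θ)
    (hθ : ∀ (n : ℕ) (f : Lg.Functions n) (x y : Fin n → BI),
      (∀ i, θ (x i) (y i)) → θ (Language.Structure.funMap f x) (Language.Structure.funMap f y))
    (h : ∃ x y, θ x y ∧ x ≠ y) : θ zI eI := by
  obtain ⟨x, y, hxy, hne⟩ := h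
  have h1 : θ (fo 2 x y) eI := by
    have := comp_fo hθ 2 hxy (eθ.refl y)
    rw [fo_rd_self] at this
    exact this
  have h2 : fo 2 x y ≠ eI := fun hc => hne (fo_rd_e x y hc)
  have hcm : ∀ u v : BI, θ u eI → θ (cm u v) eI := by
    intro u v hu
    have := comp_fo hθ 2 (comp_fo hθ 0 hu (eθ.refl v)) (comp_fo hθ 0 (eθ.refl v) hu)
    change θ (cm u v) (cm eI v) at this
    rw [cm_e] at this
    exact this
  obtain ⟨y', z', h3⟩ := BI_si _ h2
  rcases h3 with h3 | h3 | h3
  · rw [← h3]; exact h1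
  · rw [← h3]; exact hcm _ _ h1
  · rw [← h3]; exact hcm _ _ (hcm _ _ h1)

/-- the ultraproduct is not a model of a finite theory whose models satisfy the identities -/
theorem no_T (T : Lg.Theory) (hT : T.Finite) (hB : Language.Theory.Model BI T)
    (h : ∀ a, Language.Theory.Model (M (a + 1)) T → ∀ (n : ℕ) (t s : Lg.Term (Fin n)),
      (∀ v : Fin n → Q, ev opQ t v = ev opQ s v) →
      ∀ w : Fin n → M (a + 1), ev (opM (a + 1)) t w = ev (opM (a + 1)) s w) : False := by
  have h1 : ∀ φ ∈ T, ∀ᶠ a in (U : Filter ℕ), (M (a + 1)) ⊨ φ := by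
    intro φ hφ
    have h2 : BI ⊨ φ := Language.Theory.realize_sentence_of_mem T hφ
    exact (Language.Ultraproduct.sentence_realize (L := Lg) (M := fun a => M (a + 1)) (u := U)
      φ).mp h2
  have h2 : ∀ᶠ a in (U : Filter ℕ), ∀ φ ∈ T, (M (a + 1)) ⊨ φ :=
    (Filter.eventually_all_finite hT).mpr h1
  obtain ⟨a, ha⟩ := h2.exists
  exact not_id_M a (h a ⟨fun φ hφ => ha φ hφ⟩)

/-- the monolith -/
theorem BI_monolith : ∃ μ : BI → BI → Prop, Equivalence μ ∧
    (∀ (n : ℕ) (f : Lg.Functions n) (x y : Fin n → BI),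
      (∀ i, μ (x i) (y i)) → μ (Language.Structure.funMap f x) (Language.Structure.funMap f y)) ∧
    (∃ x y : BI, μ x y ∧ x ≠ y) ∧
    ∀ θ : BI → BI → Prop, Equivalence θ →
      (∀ (n : ℕ) (f : Lg.Functions n) (x y : Fin n → BI),
        (∀ i, θ (x i) (y i)) → θ (Language.Structure.funMap f x) (Language.Structure.funMap f y)) →
      (∃ x y : BI, θ x y ∧ x ≠ y) → ∀ x y : BI, μ x y → θ x y := by
  refine ⟨fun x y => ∀ θ : BI → BI → Prop, Equivalence θ →
      (∀ (n : ℕ) (f : Lg.Functions n) (x y : Fin n → BI),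
        (∀ i, θ (x i) (y i)) → θ (Language.Structure.funMap f x) (Language.Structure.funMap f y)) →
      (∃ x y : BI, θ x y ∧ x ≠ y) → θ x y, ?_, ?_, ?_, ?_⟩
  · refine ⟨?_, ?_, ?_⟩
    · intro x θ e1 _ _
      exact e1.refl x
    · intro x y h θ e1 e2 e3
      exact e1.symm (h θ e1 e2 e3)
    · intro x y z h h' θ e1 e2 e3
      exact e1.trans (h θ e1 e2 e3) (h' θ e1 e2 e3)
  · intro n f x y h θ e1 e2 e3
    exact e2 n f x y (fun i => h i θ e1 e2 e3)
  · exact ⟨zI, eI, fun θ e1 e2 e3 => BI_mono θ e1 e2 e3, zI_ne⟩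
  · intro θ e1 e2 e3 x y h
    exact h θ e1 e2 e3

/-- the congruence property for function symbols -/
theorem θ_fun (i n : ℕ) (f : Lg.Functions n) (x y : Fin n → Q) (h : ∀ j, θ i (x j) (y j)) :
    θ i (@Language.Structure.funMap Lg Q opQ.str n f x)
      (@Language.Structure.funMap Lg Q opQ.str n f y) := by
  revert n f x y
  refine fun n f => fun_ind (P := fun n f => ∀ x y : Fin n → Q, (∀ j, θ i (x j) (y j)) →
    θ i (@Language.Structure.funMap Lg Q opQ.str n f x)
      (@Language.Structure.funMap Lg Q opQ.str n f y)) ?_ ?_ n f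
  · intro g x y _
    exact (θ_equiv i).refl _
  · intro g x y h
    exact θ_comp i g _ _ _ _ (h 0) (h 1)

/-- there are finitely many function symbols -/
theorem fin_fun : Finite (Σ n, Lg.Functions n) := by
  have h1 : ∀ p : (Σ n, Lg.Functions n), p.1 < 3 := by
    rintro ⟨n, g⟩
    refine fun_ind (P := fun n _ => n < 3) ?_ ?_ n g
    · intro _; norm_num
    · intro _; norm_num
  have h2 : ∀ n, Finite (Lg.Functions n) := by
    intro n
    change Finite (Fin _)
    infer_instance
  have h3 : Finite (Σ n : Fin 3, Lg.Functions n) := by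
    have : ∀ n : Fin 3, Finite (Lg.Functions n) := fun n => h2 n
    infer_instance
  refine Finite.of_injective (β := Σ n : Fin 3, Lg.Functions n)
    (fun p => ⟨⟨p.1, h1 p⟩, p.2⟩) ?_
  rintro ⟨n, g⟩ ⟨n', g'⟩ h
  simp only [Sigma.mk.injEq, Fin.mk.injEq] at h
  obtain ⟨h4, h5⟩ := h
  subst h4
  simp only [heq_eq_eq] at h5
  subst h5
  rfl

end Pool.Agent.W434.LoopSI
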