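import Pool.Agent.H659Loop.Nilp

/-!
The models `M d` of `H659Loop` are subdirectly irreducible in a uniform way; the term condition
for the loop of order 72; ultraproducts of the models.
-/

set_option autoImplicit false

open FirstOrder

namespace Pool.Agent.W434.LoopSI

open Pool.Agent.H659Loop

/-! ### Terms over an arbitrary set of variables -/

/-- the induction principle for terms over an arbitrary set of variables -/
theorem term_ind' {V : Type} {P : Lg.Term V → Prop} (hv : ∀ n, P (Language.Term.var n))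
    (h0 : ∀ (g : Lg.Functions 0) (ts : Fin 0 → Lg.Term V), P (Language.Term.func g ts))
    (h2 : ∀ (g : Lg.Functions 2) (ts : Fin 2 → Lg.Term V), P (ts 0) → P (ts 1) →
      P (Language.Term.func g ts)) : ∀ t, P t := by
  intro t
  induction t with
  | var n => exact hv n
  | @func l g ts ih =>
    match l, g, ts, ih with
    | 0, g, ts, _ => exact h0 g ts
    | 1, g, _, _ => exact Fin.elim0 (show Fin 0 from g)
    | 2, g, ts, ih => exact h2 g ts (ih 0) (ih 1)
    | (n + 3), g, _, _ =>
      have hE : Lg.Functions (n + 3) = Fin 0 := by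
        change Fin (if n + 3 = 0 then 1 else if n + 3 = 2 then 3 else 0) = Fin 0
        have hh : (if n + 3 = 0 then 1 else if n + 3 = 2 then 3 else 0) = 0 := by
          simp
        rw [hh]
      exact Fin.elim0 (cast hE g)

/-- the induction principle for function symbols -/
theorem fun_ind {P : ∀ n, Lg.Functions n → Prop} (h0 : ∀ g : Lg.Functions 0, P 0 g)
    (h2 : ∀ g : Lg.Functions 2, P 2 g) : ∀ n g, P n g := by
  intro n g
  match n, g with
  | 0, g => exact h0 g
  | 1, g => exact Fin.elim0 (show Fin 0 from g)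
  | 2, g => exact h2 g
  | (n + 3), g =>
    have hE : Lg.Functions (n + 3) = Fin 0 := by
      change Fin (if n + 3 = 0 then 1 else if n + 3 = 2 then 3 else 0) = Fin 0
      have hh : (if n + 3 = 0 then 1 else if n + 3 = 2 then 3 else 0) = 0 := by
        simp
      rw [hh]
    exact Fin.elim0 (cast hE g)

/-- evaluation -/
def ev {Q V : Type} (o : Ops Q) (t : Lg.Term V) (v : V → Q) : Q :=
  @Language.Term.realize Lg Q o.str V v t

theorem ev_var {Q V : Type} (o : Ops Q) (n : V) (v : V → Q) :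
    ev o (Language.Term.var n) v = v n := rfl

theorem ev_zero {Q V : Type} (o : Ops Q) (g : Lg.Functions 0) (ts : Fin 0 → Lg.Term V)
    (v : V → Q) : ev o (Language.Term.func g ts) v = o.e := rfl

theorem ev_two {Q V : Type} (o : Ops Q) (g : Lg.Functions 2) (ts : Fin 2 → Lg.Term V)
    (v : V → Q) :
    ev o (Language.Term.func g ts) v = o.op g (ev o (ts 0) v) (ev o (ts 1) v) := rfl

/-- the linear behaviour of a layer -/
theorem layer {P W G V : Type} [AddCommGroup G] (o : Ops P) (π : P → W) (q : P → G)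
    (γ : Fin 3 → W → W → G)
    (hπ : ∀ g x x' y y', π x = π x' → π y = π y' → π (o.op g x y) = π (o.op g x' y'))
    (hq : ∀ g x y, q (o.op g x y) = (opG G).op g (q x) (q y) + γ g (π x) (π y)) :
    ∀ t : Lg.Term V, ∀ v v' : V → P, (∀ j, π (v j) = π (v' j)) →
      π (ev o t v) = π (ev o t v') ∧
      q (ev o t v) - q (ev o t v') = ev (opG G) t (fun j => q (v j) - q (v' j)) := by
  refine term_ind' ?_ ?_ ?_
  · intro n v v' h
    exact ⟨h n, rfl⟩
  · intro g ts v v' h
    refine ⟨rfl, ?_⟩
    rw [ev_zero, ev_zero, ev_zero, sub_self]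
    rfl
  · intro g ts ih0 ih1 v v' h
    obtain ⟨a0, b0⟩ := ih0 v v' h
    obtain ⟨a1, b1⟩ := ih1 v v' h
    rw [ev_two, ev_two, ev_two]
    refine ⟨hπ g _ _ _ _ a0 a1, ?_⟩
    rw [hq, hq, a0, a1, ← b0, ← b1]
    have key : ∀ (g : Fin 3) (x x' y y' z : G), (opG G).op g x y + z - ((opG G).op g x' y' + z) =
        (opG G).op g (x - x') (y - y') := by
      intro g x x' y y' z
      fin_cases g
      · change x + y + z - (x' + y' + z) = (x - x') + (y - y'); abel
      · change y - x + z - (y' - x' + z) = (y - y') - (x - x'); abel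
      · change x - y + z - (x' - y' + z) = (x - x') - (y - y'); abel
    exact key _ _ _ _ _ _

/-- the term condition for a layer -/
theorem layer_tc {P W G : Type} [AddCommGroup G] (o : Ops P) (π : P → W) (q : P → G)
    (γ : Fin 3 → W → W → G)
    (hπ : ∀ g x x' y y', π x = π x' → π y = π y' → π (o.op g x y) = π (o.op g x' y'))
    (hq : ∀ g x y, q (o.op g x y) = (opG G).op g (q x) (q y) + γ g (π x) (π y))
    {m n : ℕ} (t : Lg.Term (Fin m ⊕ Fin n)) (a b : Fin m → P) (c d : Fin n → P)
    (hcd : ∀ j, π (c j) = π (d j))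
    (h : q (ev o t (Sum.elim a c)) = q (ev o t (Sum.elim a d))) :
    π (ev o t (Sum.elim b c)) = π (ev o t (Sum.elim b d)) ∧
    q (ev o t (Sum.elim b c)) = q (ev o t (Sum.elim b d)) := by
  have h1 := layer o π q γ hπ hq t (Sum.elim a c) (Sum.elim a d) (by
    intro j; cases j with
    | inl j => rfl
    | inr j => exact hcd j)
  have h2 := layer o π q γ hπ hq t (Sum.elim b c) (Sum.elim b d) (by
    intro j; cases j with
    | inl j => rfl
    | inr j => exact hcd j)
  refine ⟨h2.1, ?_⟩
  rw [← sub_eq_zero, h2.2]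
  have h3 : (fun j => q (Sum.elim b c j) - q (Sum.elim b d j)) =
      (fun j => q (Sum.elim a c j) - q (Sum.elim a d j)) := by
    funext j
    cases j with
    | inl j => simp
    | inr j => rfl
  rw [h3, ← h1.2, h, sub_self]

/-! ### The central series of the loop of order 72 -/

/-- the three congruences -/
def θ (i : ℕ) (x y : Q) : Prop :=
  match i with
  | 0 => True
  | 1 => x.1.1 = y.1.1
  | 2 => x.1 = y.1
  | _ => x = y

theorem θ_equiv (i : ℕ) : Equivalence (θ i) := by
  match i with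
  | 0 => exact ⟨fun _ => trivial, fun _ => trivial, fun _ _ => trivial⟩
  | 1 => exact ⟨fun _ => rfl, fun h => Eq.symm h, fun h h' => Eq.trans h h'⟩
  | 2 => exact ⟨fun _ => rfl, fun h => Eq.symm h, fun h h' => Eq.trans h h'⟩
  | (n + 3) => exact ⟨fun _ => rfl, fun h => Eq.symm h, fun h h' => Eq.trans h h'⟩

theorem opX_top (g : Fin 3) (x y : X (Fin 2) A) :
    ((opX evQ).op g x y).1 = (opG A).op g x.1 y.1 := fst_hom evQ g x y

theorem opX_mid (g : Fin 3) (x y : X (Fin 2) A) :
    ((opX evQ).op g x y).2 = (opG (Fin 2 → K)).op g x.2 y.2 +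
      (fun i => ((opX evQ).op g (x.1, 0) (y.1, 0)).2 i) := by
  fin_cases g
  · funext i
    change x.2 i + y.2 i + f (evQ i x.1) (evQ i y.1) = x.2 i + y.2 i +
      (0 + 0 + f (evQ i x.1) (evQ i y.1))
    ring
  · funext i
    change y.2 i - x.2 i - f (evQ i x.1) (evQ i (y.1 - x.1)) = y.2 i - x.2 i +
      (0 - 0 - f (evQ i x.1) (evQ i (y.1 - x.1)))
    ring
  · funext i
    change x.2 i - y.2 i - f (evQ i (x.1 - y.1)) (evQ i y.1) = x.2 i - y.2 i +
      (0 - 0 - f (evQ i (x.1 - y.1)) (evQ i y.1))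
    ring

theorem θ_comp (i : ℕ) (g : Fin 3) (x x' y y' : Q) (hx : θ i x x') (hy : θ i y y') :
    θ i (opQ.op g x y) (opQ.op g x' y') := by
  match i with
  | 0 => trivial
  | 1 =>
    change ((opQ.op g x y).1).1 = ((opQ.op g x' y').1).1
    unfold opQ
    rw [opE_fst, opE_fst, opX_top, opX_top]
    change x.1.1 = x'.1.1 at hx
    change y.1.1 = y'.1.1 at hy
    rw [hx, hy]
  | 2 =>
    change (opQ.op g x y).1 = (opQ.op g x' y').1
    unfold opQ
    rw [opE_fst, opE_fst]
    change x.1 = x'.1 at hx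
    change y.1 = y'.1 at hy
    rw [hx, hy]
  | (n + 3) =>
    change x = x' at hx
    change y = y' at hy
    subst hx; subst hy; rfl

theorem θ_tc (i : ℕ) (hi : i < 3) (m n : ℕ) (t : Lg.Term (Fin m ⊕ Fin n)) (a b : Fin m → Q)
    (c d : Fin n → Q) (hcd : ∀ j, θ i (c j) (d j))
    (h : θ (i + 1) (ev opQ t (Sum.elim a c)) (ev opQ t (Sum.elim a d))) :
    θ (i + 1) (ev opQ t (Sum.elim b c)) (ev opQ t (Sum.elim b d)) := by
  match i, hi with
  | 0, _ =>
    exact (layer_tc (W := Unit) (G := A) opQ (fun _ => ()) (fun x => x.1.1) (fun _ _ _ => 0)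
      (fun _ _ _ _ _ _ _ => rfl) (by
        intro g x y
        unfold opQ
        rw [opE_fst, opX_top, add_zero]) t a b c d (fun _ => rfl) h).2
  | 1, _ =>
    have h1 := layer_tc (W := A) (G := Fin 2 → K) opQ (fun x => x.1.1) (fun x => x.1.2)
      (fun g x y => (fun i => ((opX evQ).op g (x, 0) (y, 0)).2 i))
      (by
        intro g x x' y y' hx hy
        unfold opQ
        rw [opE_fst, opX_top, opE_fst, opX_top, hx, hy]) (by
        intro g x y
        unfold opQ
        rw [opE_fst]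
        exact opX_mid g x.1 y.1) t a b c d hcd (congrArg Prod.snd h)
    exact Prod.ext h1.1 h1.2
  | 2, _ =>
    have h1 := layer_tc (W := X (Fin 2) A) (G := C) opQ (fun x => x.1) (fun x => x.2)
      (fun g x y => ∑ i, coc g (pr evQ i x) (pr evQ i y))
      (by
        intro g x x' y y' hx hy
        unfold opQ
        rw [opE_fst, opE_fst, hx, hy]) (by
        intro g x y
        exact opE_snd evQ g x y) t a b c d hcd (congrArg Prod.snd h)
    exact Prod.ext h1.1 h1.2

/-! ### Uniform subdirect irreducibility of the models -/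

/-- the commutator `(xy)/(yx)` -/
def com {Q : Type} (o : Ops Q) (x y : Q) : Q := o.rd (o.mul x y) (o.mul y x)

/-- the nontrivial central element -/
def zet (d : ℕ) : M d := ((0, 0), 1)

theorem zet_ne (d : ℕ) : zet d ≠ (opM d).e := by
  intro h
  have h1 : (1 : C) = 0 := congrArg Prod.snd h
  exact absurd h1 (by decide)

theorem com_top {d : ℕ} (x y : M d) : (com (opM d) x y).1.1 = 0 := by
  change x.1.1 + y.1.1 - (y.1.1 + x.1.1) = 0
  abel

theorem com_mid {d : ℕ} (x y : M d) (i : Fin d → ZMod 2) : (com (opM d) x y).1.2 i =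
    f (evM d i x.1.1) (evM d i y.1.1) - f (evM d i y.1.1) (evM d i x.1.1) := by
  have h0 : x.1.1 + y.1.1 - (y.1.1 + x.1.1) = 0 := by abel
  change x.1.2 i + y.1.2 i + f (evM d i x.1.1) (evM d i y.1.1) -
    (y.1.2 i + x.1.2 i + f (evM d i y.1.1) (evM d i x.1.1)) -
    f (evM d i (x.1.1 + y.1.1 - (y.1.1 + x.1.1))) (evM d i (y.1.1 + x.1.1)) = _
  rw [h0, map_zero, f_zero_left]
  ring

/-- the commutator of an element with trivial top and another element -/
theorem com_bot {d : ℕ} (x y : M d) (hx : x.1.1 = 0) (hy : y.1.1 = 0) :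
    com (opM d) x y = ((0, 0), ∑ i, (h (x.1.2 i) (y.1.2 i) - h (y.1.2 i) (x.1.2 i))) := by
  apply e_ext
  · exact com_top x y
  · intro i
    rw [com_mid, hx, hy]
    simp
  · have h1 : ∀ i, coc 2 (pr (evM d) i ((opX (evM d)).mul x.1 y.1))
        (pr (evM d) i ((opX (evM d)).mul y.1 x.1)) = 0 := by
      intro i
      have h2 : (opB.rd (pr (evM d) i ((opX (evM d)).mul x.1 y.1))
          (pr (evM d) i ((opX (evM d)).mul y.1 x.1))).2 = 0 := by
        simp only [opB, opX, pr, hx, hy, map_add, map_zero, f_zero_left, add_zero, sub_self]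
        ring
      simp only [coc, h2, h_zero_left, neg_zero]
    change (x.2 + y.2 + ∑ i, coc 0 (pr (evM d) i x.1) (pr (evM d) i y.1)) -
      (y.2 + x.2 + ∑ i, coc 0 (pr (evM d) i y.1) (pr (evM d) i x.1)) +
      ∑ i, coc 2 (pr (evM d) i ((opX (evM d)).mul x.1 y.1))
        (pr (evM d) i ((opX (evM d)).mul y.1 x.1)) = _
    rw [Finset.sum_congr rfl (fun i _ => h1 i), Finset.sum_const_zero, add_zero,
      Finset.sum_sub_distrib]
    change x.2 + y.2 + ∑ i, h (x.1.2 i) (y.1.2 i) - (y.2 + x.2 + ∑ i, h (y.1.2 i) (x.1.2 i)) = _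
    abel

/-- a nonzero middle part gives the central element -/
theorem si_mid {d : ℕ} (x : M d) (hx : x.1.1 = 0) (hx' : x.1.2 ≠ 0) :
    ∃ z : M d, com (opM d) x z = zet d := by
  classical
  obtain ⟨i, hi⟩ : ∃ i, x.1.2 i ≠ 0 := by
    by_contra hc
    push_neg at hc
    exact hx' (funext hc)
  have key : ∀ k : K, k ≠ 0 → ∃ l : K, h k l - h l k = 1 := by decide
  obtain ⟨l, hl⟩ := key _ hi
  refine ⟨((0, Pi.single i l), 0), ?_⟩
  rw [com_bot _ _ hx rfl]
  apply e_ext
  · rfl
  · intro _; rfl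
  · change ∑ j, (h (x.1.2 j) ((Pi.single i l : (Fin d → ZMod 2) → K) j) -
      h ((Pi.single i l : (Fin d → ZMod 2) → K) j) (x.1.2 j)) = 1
    rw [Finset.sum_eq_single i]
    · rw [Pi.single_eq_same]; exact hl
    · intro j _ hj
      rw [Pi.single_eq_of_ne hj, h_zero_left, h_zero_right, sub_self]
    · intro hc; exact absurd (Finset.mem_univ _) hc

/-- a nonzero top gives a nonzero middle part -/
theorem si_top {d : ℕ} (hd : 0 < d) (x : M d) (hx : x.1.1 ≠ 0) :
    ∃ y : M d, (com (opM d) x y).1.2 ≠ 0 := by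
  classical
  have hb : ∀ a : ZMod 2, a ≠ 0 → bit a ≠ 0 := by decide
  by_cases h2 : x.1.1.2 = 0
  · -- then the vector is nonzero
    have h1 : x.1.1.1 ≠ 0 := by
      intro h1
      exact hx (Prod.ext h1 h2)
    obtain ⟨j, hj⟩ : ∃ j, x.1.1.1 j ≠ 0 := by
      by_contra hc
      push_neg at hc
      exact h1 (funext hc)
    refine ⟨(((0, 1), 0), 0), ?_⟩
    intro hc
    have h3 := congrFun hc (Pi.single j 1)
    rw [com_mid] at h3
    have e1 : evM d (Pi.single j 1) x.1.1 = (x.1.1.1 j, 0) := by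
      apply Prod.ext
      · simp [evM, Pi.single_apply]
      · exact h2
    have e2 : evM d (Pi.single j 1) ((0, 1) : LL d) = (0, 1) := by
      apply Prod.ext
      · simp [evM]
      · rfl
    have h4 : f (x.1.1.1 j, 0) (0, 1) - f (0, 1) (x.1.1.1 j, 0) = 0 := by
      rw [← e1, ← e2]
      exact h3
    have h5 : ∀ a : ZMod 2, f (a, 0) (0, 1) - f (0, 1) (a, 0) = bit a := by decide
    rw [h5] at h4
    exact hb _ hj h4
  · have h1 : x.1.1.2 = 1 := by
      have : ∀ a : ZMod 2, a ≠ 0 → a = 1 := by decide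
      exact this _ h2
    refine ⟨(((Pi.single ⟨0, hd⟩ 1, 0), 0), 0), ?_⟩
    intro hc
    have h3 := congrFun hc (Pi.single ⟨0, hd⟩ 1)
    rw [com_mid] at h3
    have e1 : evM d (Pi.single ⟨0, hd⟩ 1) x.1.1 = (x.1.1.1 ⟨0, hd⟩, 1) := by
      apply Prod.ext
      · simp [evM, Pi.single_apply]
      · exact h1
    have e2 : evM d (Pi.single ⟨0, hd⟩ 1) ((Pi.single ⟨0, hd⟩ 1, 0) : LL d) = (1, 0) := by
      apply Prod.ext
      · simp [evM, Pi.single_apply]
      · rfl
    have h4 : f (x.1.1.1 ⟨0, hd⟩, 1) (1, 0) - f (1, 0) (x.1.1.1 ⟨0, hd⟩, 1) = 0 := by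
      rw [← e1, ← e2]
      exact h3
    have h5 : ∀ a : ZMod 2, f (a, 1) (1, 0) - f (1, 0) (a, 1) ≠ 0 := by decide
    exact h5 _ h4

/-- uniform subdirect irreducibility -/
theorem si {d : ℕ} (hd : 0 < d) (x : M d) (hx : x ≠ (opM d).e) :
    ∃ y z : M d, x = zet d ∨ com (opM d) x z = zet d ∨
      com (opM d) (com (opM d) x y) z = zet d := by
  by_cases h1 : x.1.1 = 0
  · by_cases h2 : x.1.2 = 0
    · refine ⟨x, x, Or.inl ?_⟩
      apply e_ext
      · exact h1
      · intro i; exact congrFun h2 i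
      · have h3 : x.2 ≠ 0 := by
          intro h3
          apply hx
          apply e_ext
          · exact h1
          · intro i; exact congrFun h2 i
          · exact h3
        have : ∀ a : C, a ≠ 0 → a = 1 := by decide
        exact this _ h3
    · obtain ⟨z, hz⟩ := si_mid x h1 h2
      exact ⟨x, z, Or.inr (Or.inl hz)⟩
  · obtain ⟨y, hy⟩ := si_top hd x h1
    obtain ⟨z, hz⟩ := si_mid (com (opM d) x y) (com_top x y) hy
    exact ⟨y, z, Or.inr (Or.inr hz)⟩

end Pool.Agent.W434.LoopSI
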