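import Pool.Agent.Results.MP_495f0d_co.AtLeastTwo

/-!
# Mex sequences whose initial terms are positive, the last one being one
-/

set_option autoImplicit false

namespace Pool.Agent.W434.MexOne

open Pool.Agent.Results.MP_495f0d_co.AtLeastTwo (key mex_eq)

/-- the pattern -/
def pat (L d r : ℕ) : ℕ :=
  if r < L then 1 else if r < 2 * L + 1 then 0 else if r < 2 * L + 1 + d then 3
    else if r < 3 * L + 1 then 2 else 1

theorem values (L d : ℕ) (hL : 1 ≤ L) (hd : d < L) (a : ℕ → ℕ) (hinit : ∀ i < L, 1 ≤ a i)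
    (hlast : a (L - 1) = 1) (hd2 : 0 < d → a (d - 1) = 2) (h2 : ∀ i < L, a i = 2 → i < d)
    (h3 : 0 < d → ∀ i < L, a i ≠ 3)
    (hmex : ∀ m : ℕ, L ≤ m + 1 →
      a (m + 1) = sInf {k : ℕ | ∀ i : ℕ, i ≤ m → a i + a (m - i) ≠ k}) (k : ℕ) (hk : L ≤ k) :
    a k = pat L d (k % (3 * L + 2)) := by
  induction k using Nat.strong_induction_on with
  | _ k ih =>
    obtain ⟨m, rfl⟩ : ∃ m, k = m + 1 := ⟨k - 1, by omega⟩
    have hv : ∀ j ≤ m,
        (j % (3 * L + 2) < L ∧ (a j = 1 ∨ (j % (3 * L + 2) = j ∧ 2 ≤ a j ∧ (a j = 2 → j < d) ∧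
          (a j = 3 → d = 0)))) ∨
        (L ≤ j % (3 * L + 2) ∧ j % (3 * L + 2) < 2 * L + 1 ∧ a j = 0) ∨
        (2 * L + 1 ≤ j % (3 * L + 2) ∧ j % (3 * L + 2) < 2 * L + 1 + d ∧ a j = 3) ∨
        (2 * L + 1 + d ≤ j % (3 * L + 2) ∧ j % (3 * L + 2) < 3 * L + 1 ∧ a j = 2) ∨
        (j % (3 * L + 2) = 3 * L + 1 ∧ a j = 1) := by
      intro j hj
      have hjm := Nat.mod_lt j (show 0 < 3 * L + 2 by omega)
      rcases lt_or_ge j L with h | h
      · have hm : j % (3 * L + 2) = j := Nat.mod_eq_of_lt (by omega)
        left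
        refine ⟨by omega, ?_⟩
        have := hinit j h
        by_cases h1 : a j = 1
        · exact Or.inl h1
        · refine Or.inr ⟨hm, by omega, h2 j h, fun h33 => ?_⟩
          by_contra hd0
          exact h3 (by omega) j h h33
      · have := ih j (by omega) h
        unfold pat at this
        split_ifs at this <;> omega
    have hr := Nat.mod_lt (m + 1) (show 0 < 3 * L + 2 by omega)
    rw [hmex m hk]
    have att : ∀ i ≤ m, ∀ v, a i + a (m - i) = v →
        v ∉ {k : ℕ | ∀ i : ℕ, i ≤ m → a i + a (m - i) ≠ k} := by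
      intro i hi v hiv hmem
      exact hmem i hi hiv
    have cls : ∀ i ≤ m, ((m + 1) % (3 * L + 2) = i % (3 * L + 2) + (m - i) % (3 * L + 2) + 1 ∨
        (m + 1) % (3 * L + 2) + (3 * L + 2) =
          i % (3 * L + 2) + (m - i) % (3 * L + 2) + 1) := by
      intro i hi
      have := key (3 * L + 2) i (m - i) (by omega)
      rwa [show i + (m - i) + 1 = m + 1 by omega] at this
    have hbig : (m + 1) % (3 * L + 2) < L → 3 * L + 2 ≤ m + 1 := by
      intro c2
      by_contra h
      rw [Nat.mod_eq_of_lt (by omega)] at c2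
      omega
    have hmid : (m + 1) % (3 * L + 2) ≤ m + 1 := Nat.mod_le _ _
    -- zero is attained outside the block of zeros
    have a0 : ((m + 1) % (3 * L + 2) < L ∨ 2 * L + 1 ≤ (m + 1) % (3 * L + 2)) →
        0 ∉ {k : ℕ | ∀ i : ℕ, i ≤ m → a i + a (m - i) ≠ k} := by
      rintro (c | c)
      · have e1 : (2 * L) % (3 * L + 2) = 2 * L := Nat.mod_eq_of_lt (by omega)
        have hm := hbig c
        apply att (2 * L) (by omega)
        have h1 := hv (2 * L) (by omega)
        have h2 := hv (m - 2 * L) (by omega)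
        have h3 := cls (2 * L) (by omega)
        have h5 := Nat.mod_lt (m - 2 * L) (show 0 < 3 * L + 2 by omega)
        rw [e1] at h1 h3
        generalize (m - 2 * L) % (3 * L + 2) = t at *
        omega
      · have e2 : L % (3 * L + 2) = L := Nat.mod_eq_of_lt (by omega)
        apply att L (by omega)
        have h1 := hv L (by omega)
        have h2 := hv (m - L) (by omega)
        have h3 := cls L (by omega)
        have h5 := Nat.mod_lt (m - L) (show 0 < 3 * L + 2 by omega)
        rw [e2] at h1 h3
        generalize (m - L) % (3 * L + 2) = t at *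
        omega
    -- one is attained between the zeros and the ones
    have a1 : (2 * L + 1 ≤ (m + 1) % (3 * L + 2) ∧ (m + 1) % (3 * L + 2) < 3 * L + 1) →
        1 ∉ {k : ℕ | ∀ i : ℕ, i ≤ m → a i + a (m - i) ≠ k} := by
      rintro c
      have e2 : (L - 1) % (3 * L + 2) = L - 1 := Nat.mod_eq_of_lt (by omega)
      apply att (L - 1) (by omega)
      have h2 := hv (m - (L - 1)) (by omega)
      have h3 := cls (L - 1) (by omega)
      have h5 := Nat.mod_lt (m - (L - 1)) (show 0 < 3 * L + 2 by omega)
      rw [e2] at h3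
      generalize (m - (L - 1)) % (3 * L + 2) = t at *
      omega
    have a2 : (2 * L + 1 ≤ (m + 1) % (3 * L + 2) ∧ (m + 1) % (3 * L + 2) < 2 * L + 1 + d) →
        2 ∉ {k : ℕ | ∀ i : ℕ, i ≤ m → a i + a (m - i) ≠ k} := by
      rintro c
      have e2 : (d - 1) % (3 * L + 2) = d - 1 := Nat.mod_eq_of_lt (by omega)
      have hd2' := hd2 (by omega)
      apply att (d - 1) (by omega)
      have h2 := hv (m - (d - 1)) (by omega)
      have h3 := cls (d - 1) (by omega)
      have h5 := Nat.mod_lt (m - (d - 1)) (show 0 < 3 * L + 2 by omega)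
      rw [e2] at h3
      generalize (m - (d - 1)) % (3 * L + 2) = t at *
      omega
    unfold pat
    split_ifs with c1 c2 c3 c4
    all_goals apply mex_eq
    all_goals first
      | (intro v hlt
         interval_cases v
         all_goals first
          | exact a0 (by omega)
          | exact a1 (by omega)
          | exact a2 (by omega))
      | (intro i hi hsum
         have h1 := hv i hi
         have h2 := hv (m - i) (by omega)
         have h3 := cls i hi
         have h4 := Nat.mod_lt i (show 0 < 3 * L + 2 by omega)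
         have h5 := Nat.mod_lt (m - i) (show 0 < 3 * L + 2 by omega)
         clear ih hv att cls a0 a1 a2 hmex hinit
         generalize i % (3 * L + 2) = s at *
         generalize (m - i) % (3 * L + 2) = t at *
         generalize (m + 1) % (3 * L + 2) = r at *
         generalize a i = x at *
         generalize a (m - i) = y at *
         rcases h1 with ⟨h1, h1' | h1'⟩ | h1 | h1 | h1 | h1 <;>
         rcases h2 with ⟨h2, h2' | h2'⟩ | h2 | h2 | h2 | h2 <;> omega)
      | (intro v hlt; omega)

end Pool.Agent.W434.MexOne
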